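import Pool.Agent.H224R2.Mah.Defs

/-!
# Task C4: the complex lower bound (helper215)

`C4_complex_of` takes the statements of `C3_base` and `L5_lelong` as hypotheses.
-/

namespace Pool.Agent.H224R2.Mah

open MeasureTheory Set Filter Topology
open scoped ENNReal RealInnerProductSpace

section
variable {n : ℕ}

/-- `V` is monotone -/
theorem VV_mono {ι : Type} [Fintype ι] (P : Set ℂ) (S : ι → ℂ → ℝ) (a : ι → Fin n → ℝ)
    {s t : ℝ} (hst : s ≤ t) : VV P S a s ≤ VV P S a t := by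
  unfold VV
  apply lintegral_mono_set
  rintro z ⟨h1, h2⟩
  exact ⟨h1, lt_of_lt_of_le h2 hst⟩

/-- the vectors of a family that contains a basis span the space -/
theorem span_elim {κ : Type} (b : Fin n → Fin n → ℝ) (hb : (Matrix.of b).det ≠ 0)
    (c : κ → Fin n → ℝ) : Submodule.span ℝ (Set.range (Sum.elim b c)) = ⊤ := by
  have h1 : LinearIndependent ℝ b := by
    have h2 : IsUnit (Matrix.of b) := by
      rw [Matrix.isUnit_iff_isUnit_det]
      exact isUnit_iff_ne_zero.2 hb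
    exact Matrix.linearIndependent_rows_iff_isUnit.2 h2
  have h3 : Submodule.span ℝ (Set.range b) = ⊤ := by
    apply h1.span_eq_top_of_card_eq_finrank'
    simp
  rw [eq_top_iff, ← h3]
  apply Submodule.span_mono
  rintro _ ⟨i, rfl⟩
  exact ⟨Sum.inl i, rfl⟩

/-- C4. The complex lower bound (uses C3, L5). -/
theorem C4_complex_of {P : Set ℂ} {S : ℕ → ℂ → ℝ} (hD : Dom P S) {κ : Type} [Fintype κ]
    (b : Fin n → Fin n → ℝ) (hb : (Matrix.of b).det ≠ 0) (c : κ → Fin n → ℝ) {m : ℕ} (hm : 2 ≤ m)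
    (hC3 : ∀ ε : ℝ, 0 < ε → ε < 1 → ∃ t : ℝ, 0 < t ∧ t < 1 ∧
      ENNReal.ofReal ((1 - ε) * ((4 * Real.pi * m) ^ n * t ^ n / n.factorial)) ≤
        VV P (Sum.elim (fun _ => S m) (fun _ => S (m + 1))) (Sum.elim b c) t)
    (hL5 : ∀ (P : Set ℂ), IsOpen P → ∀ (S : Fin n ⊕ κ → ℂ → ℝ) (a : Fin n ⊕ κ → Fin n → ℝ),
      Submodule.span ℝ (Set.range a) = ⊤ → (∀ j, PSH P (S j)) →
      (∀ j, ∀ t < 1, IsCompact {u | u ∈ P ∧ S j u ≤ t}) →
      ∀ s t : ℝ, 0 < s → s ≤ t → t < 1 →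
      VV P S a s * ENNReal.ofReal (t ^ n) ≤ VV P S a t * ENNReal.ofReal (s ^ n)) :
    ENNReal.ofReal ((4 * Real.pi * m) ^ n / n.factorial) ≤
      VV P (Sum.elim (fun _ => S m) (fun _ => S (m + 1))) (Sum.elim b c) 1 := by
  set S' : Fin n ⊕ κ → ℂ → ℝ := Sum.elim (fun _ => S m) (fun _ => S (m + 1)) with hS'
  set a : Fin n ⊕ κ → Fin n → ℝ := Sum.elim b c with ha
  set C : ℝ := (4 * Real.pi * m) ^ n / n.factorial with hC
  have hC0 : 0 ≤ C := by
    rw [hC]
    have := Real.pi_pos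
    positivity
  have hPS : ∀ j, PSH P (S' j) := by
    rintro (i | i)
    · exact hD.psh m hm
    · exact hD.psh (m + 1) (by omega)
  have hcomp : ∀ j, ∀ t < 1, IsCompact {u | u ∈ P ∧ S' j u ≤ t} := by
    rintro (i | i)
    · exact hD.compact m hm
    · exact hD.compact (m + 1) (by omega)
  have hspan : Submodule.span ℝ (Set.range a) = ⊤ := span_elim b hb c
  have key : ∀ ε : ℝ, 0 < ε → ε < 1 → ENNReal.ofReal ((1 - ε) ^ (n + 1) * C) ≤ VV P S' a 1 := by
    intro ε h0 h1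
    obtain ⟨t, ht0, ht1, ht⟩ := hC3 ε h0 h1
    set t' : ℝ := max t (1 - ε) with ht'
    have htt' : t ≤ t' := le_max_left _ _
    have ht'1 : t' < 1 := max_lt ht1 (by linarith)
    have ht'0 : 0 < t' := lt_of_lt_of_le ht0 htt'
    have hL := hL5 P hD.isOpen S' a hspan hPS hcomp t t' ht0 htt' ht'1
    have h2 : ENNReal.ofReal ((1 - ε) * C * t' ^ n) * ENNReal.ofReal (t ^ n) ≤
        VV P S' a t' * ENNReal.ofReal (t ^ n) := by
      refine le_trans ?_ hL
      refine le_trans ?_ (mul_le_mul_left ht _)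
      rw [← ENNReal.ofReal_mul (by
        have : 0 ≤ 1 - ε := by linarith
        positivity), ← ENNReal.ofReal_mul (by
        have : 0 ≤ 1 - ε := by linarith
        have := Real.pi_pos
        positivity)]
      apply ENNReal.ofReal_le_ofReal
      apply le_of_eq
      rw [hC]
      ring
    have ht0' : ENNReal.ofReal (t ^ n) ≠ 0 := by
      rw [Ne, ENNReal.ofReal_eq_zero, not_le]
      positivity
    have h3 : ENNReal.ofReal ((1 - ε) * C * t' ^ n) ≤ VV P S' a t' :=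
      (ENNReal.mul_le_mul_iff_left ht0' ENNReal.ofReal_ne_top).1 h2
    refine le_trans ?_ (h3.trans (VV_mono P S' a ht'1.le))
    apply ENNReal.ofReal_le_ofReal
    have h4 : (1 - ε) ^ n ≤ t' ^ n := pow_le_pow_left₀ (by linarith) (le_max_right _ _) n
    have h5 : 0 ≤ (1 - ε) * C := mul_nonneg (by linarith) hC0
    calc (1 - ε) ^ (n + 1) * C = (1 - ε) * C * (1 - ε) ^ n := by ring
      _ ≤ (1 - ε) * C * t' ^ n := mul_le_mul_of_nonneg_left h4 h5
  have hlim : Tendsto (fun ε : ℝ => ENNReal.ofReal ((1 - ε) ^ (n + 1) * C)) (𝓝[>] 0)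
      (𝓝 (ENNReal.ofReal C)) := by
    have h6 : Continuous (fun ε : ℝ => ENNReal.ofReal ((1 - ε) ^ (n + 1) * C)) :=
      ENNReal.continuous_ofReal.comp (by fun_prop)
    have h7 := (h6.tendsto 0).mono_left (nhdsWithin_le_nhds (s := Set.Ioi (0 : ℝ)))
    simpa using h7
  apply le_of_tendsto hlim
  filter_upwards [Ioo_mem_nhdsGT (show (0 : ℝ) < 1 by norm_num)] with ε hε
  exact key ε hε.1 hε.2

end

end Pool.Agent.H224R2.Mah
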